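import Pool.Agent.W_MP_b6e843_mp.Final

/-!
# Singular spectrum of the Anderson model on antitrees

Full affirmative answer to Q1 of MP_b6e843_mp: if `∑ 1 / s n = ∞` then, for every law of the
potential as in the problem and every disorder `lam > 0`, the spectrum of the Anderson Hamiltonian
on the antitree with shell sizes `s n` is almost surely singular (at all energies).

Method: (1) `∫ u_n² dμ ≤ 1` for the spectral measure `μ` of the root, `u_n` the generalised
eigenfunction; (2) a weak type estimate for Herglotz functions shows that the transfer matrices are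
bounded in measure on the a.c. support; (3) a variance identity for the functions
`f_j(w) = P(|T_{j → n} w| ≤ 1)` in the plane and a shear lemma force the mass of `f_j` out of a
cone, which contradicts tightness of the continued fractions `u_m / u_{m-1}`.
-/

namespace Pool.Agent.Results.MP_b6e843_mp.SingularSpectrum

open MeasureTheory ProbabilityTheory Pool.Agent.W_MP_b6e843_mp

/-- Let `s` be a sequence of positive integers with `∑ 1 / s n = ∞`, let `v x` (`x` a vertex of the
antitree) be independent real random variables on a probability space `(Ω, P)` with common law `ν`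
carried by `[-1, 1]`, of mean zero and positive variance, and let `lam > 0`. Then, for almost every
`ω`, the Anderson Hamiltonian `A_s + lam V` with potential `x ↦ v x ω` exists as a bounded operator
on `ℓ²` of the antitree, is self-adjoint, and all its spectral measures are singular with respect
to Lebesgue measure. -/
theorem result (s : ℕ → ℕ) (hs : ∀ n, 0 < s n) (hdiv : ¬ Summable (fun n => 1 / (s n : ℝ)))
    {Ω : Type*} [MeasurableSpace Ω] (P : Measure Ω) [IsProbabilityMeasure P]
    (v : Vertex s → Ω → ℝ) (hmeas : ∀ x, Measurable (v x)) (hindep : iIndepFun v P)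
    (ν : Measure ℝ) (hlaw : ∀ x, P.map (v x) = ν) (hsupp : ν (Set.Icc (-1) 1)ᶜ = 0)
    (hmean : ∫ t, t ∂ν = 0) (hvar : 0 < ∫ t, t ^ 2 ∂ν) (lam : ℝ) (hlam : 0 < lam) :
    ∀ᵐ ω ∂P, (∃ H : L2 s →L[ℂ] L2 s, IsAnderson s lam (fun x => v x ω) H) ∧
      ∀ H : L2 s →L[ℂ] L2 s, IsAnderson s lam (fun x => v x ω) H →
        IsSelfAdjoint H ∧ HasSingularSpectrum H := by
  filter_upwards [main hs hdiv hmeas hindep hlaw hsupp hmean hvar hlam] with ω hω
  obtain ⟨H, hsa, hH, hsing⟩ := hω
  refine ⟨⟨H, hH⟩, fun H' hH' => ?_⟩
  have e : H' = H := by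
    ext ψ x
    rw [hH' ψ x, hH ψ x]
  rw [e]
  exact ⟨hsa, hsing⟩

end Pool.Agent.Results.MP_b6e843_mp.SingularSpectrum
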